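import Pool.Agent.Lib.MP_f4f1a8_lc.Star.Sharp

/-!
# Maximal complexity in Hamming balls: the sharp chord bound between radius zero and radius `D`
-/

namespace Pool.Agent.Results.MP_f4f1a8_lc.ChordLaw

open Pool.Agent.Lib.MP_f4f1a8_lc

/-- The function `M_x` lies above each chord `d ↦ l + log₂ |B(t + d)|` which is below it at the
radii `0` and `D`, up to `O(log n)`; and this is sharp for all radii `d ≤ D` simultaneously, for
each possible pair of values at the radii `0` and `D`. -/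
theorem result (U : List Bool →. List Bool) (hU : Optimal U) :
    (∃ c : ℝ, ∀ (n : ℕ) (x : Fin n → Bool) (d D t : ℕ) (l : ℝ), 2 ≤ n → d ≤ D → D ≤ n →
      l + L n t ≤ M U x 0 → l + L n (t + D) ≤ M U x D →
      l + L n (t + d) ≤ M U x d + c * Real.log n) ∧
    (∀ a : ℝ, ∃ c : ℝ, ∀ n D m₀ m₁ : ℕ, 2 ≤ n → D ≤ n →
      Admissible n 0 D m₀ m₁ (a * Real.log n) →
      ∃ (x : Fin n → Bool) (t : ℕ) (l : ℝ),
        |(M U x 0 : ℝ) - m₀| ≤ c * Real.log n ∧ |(M U x D : ℝ) - m₁| ≤ c * Real.log n ∧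
        l + L n t ≤ M U x 0 ∧ l + L n (t + D) ≤ M U x D ∧
        ∀ d ≤ D, (M U x d : ℝ) ≤ l + L n (t + d) + c * Real.log n) :=
  ⟨Pool.Agent.Lib.MP_f4f1a8_lc.Star.star_shape hU,
    fun a => Pool.Agent.Lib.MP_f4f1a8_lc.Star.sharp hU a⟩

end Pool.Agent.Results.MP_f4f1a8_lc.ChordLaw
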