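import Pool.Agent.Lib.MP_f4f1a8_lc.KR.RadZ

/-!
# MP_f4f1a8_lc: which values `M_x` takes at a set of radii

The values of the functions `M_x` at any set `D` of radii are characterised, with precision
`O(min (|D| log n) (√(n log n)) (C(f|D) + log n))`, by a condition on sets in the cube.
-/

namespace Pool.Agent.Results.MP_f4f1a8_lc.ManyRadii

open Pool.Agent.Lib.MP_f4f1a8_lc

theorem result (U : List Bool →. List Bool) (hU : Optimal U) :
    ∃ c : ℝ, 0 ≤ c ∧ ∀ n : ℕ, 2 ≤ n → ∀ D : Finset ℕ, (∀ d ∈ D, d ≤ n) →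
      ∀ (f : ℕ → ℕ) (S : ℝ),
      (KR.RobustOn n D f S → ∃ x : Fin n → Bool, ∀ d ∈ D, |(M U x d : ℝ) - f d| ≤
        S + c * min (D.card * Real.log n)
          (min (Real.sqrt (n * Real.log n)) (C U (KR.str n D f) + Real.log n))) ∧
      ((∃ x : Fin n → Bool, ∀ d ∈ D, |(M U x d : ℝ) - f d| ≤ S) → KR.RobustOn n D f
        (S + c * min (D.card * Real.log n)
          (min (Real.sqrt (n * Real.log n)) (C U (KR.str n D f) + Real.log n)))) :=
  KR.radiiZ hU

end Pool.Agent.Results.MP_f4f1a8_lc.ManyRadii
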