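import Pool.Agent.Lib.MP_f4f1a8_lc.NC.Fin

/-!
# MP_f4f1a8_lc: the functions `M_x` are not concave, at linear scale

There is an absolute `δ > 0` such that, for each optimal description method and all large `n`,
some `x ∈ {0,1}^n` and some radius `D` with `3 D ≤ n` satisfy
`M_x(D) + M_x(3 D) ≥ 2 M_x(2 D) + δ n`.
-/

namespace Pool.Agent.Results.MP_f4f1a8_lc.NotConcave

open Pool.Agent.Lib.MP_f4f1a8_lc

theorem result : ∃ δ : ℝ, 0 < δ ∧ ∀ U : List Bool →. List Bool, Optimal U →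
    ∃ n₀ : ℕ, ∀ n : ℕ, n₀ ≤ n → ∃ x : Fin n → Bool, ∃ D : ℕ, 3 * D ≤ n ∧
      2 * (M U x (2 * D) : ℝ) + δ * n ≤ M U x D + M U x (3 * D) :=
  NC.not_concave

end Pool.Agent.Results.MP_f4f1a8_lc.NotConcave
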