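import Pool.Agent.Lib.MP_f4f1a8_lc.Nec
import Pool.Agent.Lib.MP_f4f1a8_lc.Real

/-!
# Maximal complexity in Hamming balls: exact description for two radii

`M U x d` is the maximal plain complexity of a string in the Hamming ball of radius `d` around the
`n`-bit string `x`.  We determine, up to `O(log n)`, for every pair of radii `d₁ ≤ d₂ ≤ n`, which
pairs of numbers occur as `(M U x d₁, M U x d₂)`.

Necessity of the third condition is a normalised growth law for neighbourhoods
(`|S_{d₂}| / |B(d₂)| ≤ |S_{d₁}| / |B(d₁)|`), the last condition is Harper's theorem; sufficiency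
uses codes all of whose Hamming balls contain at most poly(n) times the average number of
codewords.
-/

namespace Pool.Agent.Results.MP_f4f1a8_lc.TwoRadii

open Pool.Agent.Lib.MP_f4f1a8_lc

/-- Optimal description methods exist (so the theorem below is not vacuous). -/
theorem optimal_exists : ∃ U, Optimal U := exists_optimal

/-- Two-radii theorem: every pair `(M_x(d₁), M_x(d₂))` is admissible with slack `O(log n)`, and
every pair that is admissible with slack `a log n` is equal to `(M_x(d₁), M_x(d₂))` for some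
`n`-bit string `x`, up to an error `O_a(log n)`. -/
theorem result (U : List Bool →. List Bool) (hU : Optimal U) :
    (∃ c : ℝ, ∀ (n : ℕ) (x : Fin n → Bool) (d₁ d₂ : ℕ), 2 ≤ n → d₁ ≤ d₂ → d₂ ≤ n →
      Admissible n d₁ d₂ (M U x d₁) (M U x d₂) (c * Real.log n)) ∧
    (∀ a : ℝ, ∃ c : ℝ, ∀ n d₁ d₂ m₁ m₂ : ℕ, 2 ≤ n → d₁ ≤ d₂ → d₂ ≤ n →
      Admissible n d₁ d₂ m₁ m₂ (a * Real.log n) →
      ∃ x : Fin n → Bool, |(M U x d₁ : ℝ) - m₁| ≤ c * Real.log n ∧
        |(M U x d₂ : ℝ) - m₂| ≤ c * Real.log n) := by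
  refine ⟨necessary hU, fun a => ?_⟩
  obtain ⟨c₁, h₁⟩ := select a
  obtain ⟨c₂, h₂⟩ := realize hU
  refine ⟨c₁ + c₂, ?_⟩
  intro n d₁ d₂ m₁ m₂ hn h12 hd hadm
  obtain ⟨l, hl, t, ht, e₁, e₂⟩ := h₁ n d₁ d₂ m₁ m₂ hn h12 hd hadm
  obtain ⟨x, hx⟩ := h₂ n l t hn hl ht
  refine ⟨x, ?_, ?_⟩
  · have := abs_add_le ((M U x d₁ : ℝ) - min (n : ℝ) (l + L n (t + d₁)))
      (min (n : ℝ) (l + L n (t + d₁)) - m₁)
    rw [sub_add_sub_cancel] at this
    have h3 := hx d₁ (h12.trans hd)
    rw [add_mul]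
    linarith
  · have := abs_add_le ((M U x d₂ : ℝ) - min (n : ℝ) (l + L n (t + d₂)))
      (min (n : ℝ) (l + L n (t + d₂)) - m₂)
    rw [sub_add_sub_cancel] at this
    have h3 := hx d₂ hd
    rw [add_mul]
    linarith

end Pool.Agent.Results.MP_f4f1a8_lc.TwoRadii
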